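import Pool.Agent.Helper3.SP.MDefs
import Pool.Agent.Helper96.Fc.Good

/-!
# Transfer, second part: the failure of weak compactness and the polarized relation in the model
-/

namespace Pool.Agent.Helper3.SP

open Cardinal Ordinal Set Pool.Agent.Helper96.Fc

set_option linter.unusedSectionVars false

variable {P : Type} [PartialOrder P] [OrderTop P]

/-- the canonical name of an element of `o.ToType`, as an ordinal -/
noncomputable def eN (P : Type) [PartialOrder P] [OrderTop P] {o : Ordinal.{0}} (a : o.ToType) :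
    Nm P := ordN P (ToType.toOrd a).1

/-- name of the identity function of `x` -/
def idN (x : Nm P) : Nm P := Nm.mk x.Ix (fun i => pairN (x.fn i) (x.fn i)) x.cd

/-- name of a subset of an ordinal -/
noncomputable def sbN {o : Ordinal.{0}} (H : o.ToType → Set P) : Nm P :=
  Nm.mk {t : o.ToType × P // t.2 ∈ H t.1} (fun t => eN P t.1.1) (fun t => t.1.2)

/-- name of a set of two-element sets of ordinals -/
noncomputable def clN {o : Ordinal.{0}} (W : o.ToType → o.ToType → Set P) : Nm P :=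
  Nm.mk {t : (o.ToType × o.ToType) × P // t.1.1 < t.1.2 ∧ t.2 ∈ W t.1.1 t.1.2}
    (fun t => upN (eN P t.1.1.1) (eN P t.1.1.2)) (fun t => t.1.2)

/-- the operations -/
noncomputable def O2 {o : Ordinal.{0}} (W : o.ToType → o.ToType → Set P) :
    ℕ → List (Obj P) → Obj P → Prop
  | 0, l, z => ∃ x, l = [Sum.inl x] ∧ z = Sum.inl (idN x)
  | 1, l, z => l = [] ∧ z = Sum.inl (clN W)
  | _, _, _ => False

theorem O2_fun {o : Ordinal.{0}} (W : o.ToType → o.ToType → Set P) :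
    ∀ k l y z, O2 W k l y → O2 W k l z → y = z := by
  intro k l y z hy hz
  match k, hy, hz with
  | 0, hy, hz =>
    obtain ⟨a, rfl, rfl⟩ := hy
    obtain ⟨c, h, rfl⟩ := hz
    simp only [List.cons.injEq, Sum.inl.injEq, and_true] at h
    rw [h]
  | 1, hy, hz => rw [hy.2, hz.2]
  | (n + 2), hy, hz => exact hy.elim

/-- the set of the conditions that force that an element belongs to `H` -/
def fS (H : Nm P) {o : Ordinal.{0}} (b : o.ToType) : Set P := {q | FMem (eN P b) H q}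

/-- the conditions that force that a pair belongs to `C` -/
def fC (C : Nm P) {o o' : Ordinal.{0}} (l : o'.ToType) (b : o.ToType) : Set P :=
  {q | FMem (pairN (eN P l) (eN P b)) C q}

/-- a good pair for the positive relation below `r` -/
def GPos {o o' : Ordinal.{0}} (F : o'.ToType → o.ToType → Set P) (An : o'.ToType → Set P)
    (Bn : o.ToType → Set P) (r : P) : Prop :=
  (∀ l s t, t ≤ s → s ∈ An l → t ∈ An l) ∧ (∀ b s t, t ≤ s → s ∈ Bn b → t ∈ Bn b) ∧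
    (∀ t ≤ r, ∀ l, ∃ s ≤ t, ∃ l', l < l' ∧ s ∈ An l') ∧
    (∀ t ≤ r, ∀ b, ∃ s ≤ t, ∃ b', b < b' ∧ s ∈ Bn b') ∧
    ((∀ t ≤ r, ∀ l b, t ∈ An l → t ∈ Bn b → FrIn (F l) t b) ∨
      ∀ t ≤ r, ∀ l b, t ∈ An l → t ∈ Bn b → ¬ FrIn (F l) t b)

/-- the relations -/
def R2 {o : Ordinal.{0}} (o' : Ordinal.{0}) (W : o.ToType → o.ToType → Set P) :
    ℕ → P → List (Obj P) → Prop
  | 0, q, l => ∃ (a b : o.ToType) (H : Nm P), l = [Sum.inl (pairN (eN P a) (eN P b)), Sum.inl H] ∧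
      a < b ∧ q ∈ fS H a ∧ q ∈ fS H b ∧ ∀ s ≤ q, s ∉ W a b
  | 1, q, l => ∃ (a b : o.ToType) (H : Nm P), l = [Sum.inl (pairN (eN P a) (eN P b)), Sum.inl H] ∧
      a < b ∧ q ∈ fS H a ∧ q ∈ fS H b ∧ q ∈ W a b
  | 2, q, l => ∃ (c : o.ToType) (H : Nm P), l = [Sum.inl (eN P c), Sum.inl H] ∧
      ∀ s ≤ q, ∀ b, c < b → s ∉ fS H b
  | 3, q, l => ∃ (C : Nm P) (An : o'.ToType → Set P) (Bn : o.ToType → Set P),
      l = [Sum.inl (pairN (sbN An) (sbN Bn)), Sum.inl C] ∧ GPos (fC C) An Bn q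
  | 4, q, l => ∃ (H : Nm P) (a b : Ordinal.{0}), l = [Sum.inl (ordN P b), Sum.inl (ordN P a),
      Sum.inl H] ∧ a < b ∧ FMem (ordN P b) H q
  | _, _, _ => False

/-- the assumptions on `(X, G)` -/
structure G2 (o o' : Ordinal.{0}) (W : o.ToType → o.ToType → Set P) (X : Set (Obj P))
    (G : Set P) : Prop where
  basic : Basic X G
  clos : Clos X
  oX : (Sum.inl (ordN P o) : Obj P) ∈ X
  oX' : (Sum.inl (ordN P o') : Obj P) ∈ X
  hO : ∀ k l y, (∀ a ∈ l, a ∈ X) → O2 W k l y → y ∈ X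
  hR : ∀ k, GenR X G (R2 o' W k)

section

variable {o o' : Ordinal.{0}} {W : o.ToType → o.ToType → Set P} {X : Set (Obj P)} {G : Set P}

theorem mem_val_e (h : IsFilt X G) {z : ZFSet.{0}} :
    z ∈ val X G (ordN P o) ↔ ∃ a : o.ToType, (Sum.inl (eN P a) : Obj P) ∈ X ∧
      val X G (eN P a) = z := by
  rw [val_ordN_mem h]
  constructor
  · rintro ⟨b, hb, h1, h2⟩
    refine ⟨ToType.mk ⟨b, hb⟩, ?_, ?_⟩
    · rw [eN]; simpa using h1
    · rw [eN]; simpa using h2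
  · rintro ⟨a, h1, h2⟩
    exact ⟨(ToType.toOrd a).1, (ToType.toOrd a).2, h1, h2⟩

theorem eN_lt {a b : o.ToType} : (ToType.toOrd a).1 < (ToType.toOrd b).1 ↔ a < b := by
  rw [Subtype.coe_lt_coe]
  exact OrderIso.lt_iff_lt _

theorem FMem_low {x y : Nm P} {S : Set P} (hS : ∀ s ∈ S, FMem x y s) {p : P}
    (h : ∀ q ≤ p, ∃ r ≤ q, ∃ c ∈ S, r ≤ c) : FMem x y p := by
  refine FMem.dense fun q hq => ?_
  obtain ⟨r, hr, c, hc, hrc⟩ := h q hq
  exact ⟨r, hr, (hS c hc).mono hrc⟩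

theorem mem1X {a : Obj P} (ha : a ∈ X) : ∀ c ∈ [a], c ∈ X := by
  intro c hc
  rw [List.mem_singleton] at hc
  rw [hc]; exact ha

theorem mem2X {a b : Obj P} (ha : a ∈ X) (hb : b ∈ X) : ∀ c ∈ [a, b], c ∈ X := by
  intro c hc
  rcases List.mem_cons.1 hc with rfl | hc
  · exact ha
  · exact mem1X hb c hc

theorem G2.id (h : G2 o o' W X G) {x : Nm P} (hx : (Sum.inl x : Obj P) ∈ X) :
    (Sum.inl (idN x) : Obj P) ∈ X := h.hO 0 _ _ (mem1X hx) ⟨x, rfl, rfl⟩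

theorem G2.cl (h : G2 o o' W X G) : (Sum.inl (clN W) : Obj P) ∈ X :=
  h.hO 1 [] _ (by simp) ⟨rfl, rfl⟩

theorem G2.pair_id (h : G2 o o' W X G) {x : Nm P} {a b : ZFSet.{0}} :
    ZFSet.pair a b ∈ val X G (idN x) ↔ a ∈ val X G x ∧ a = b := by
  rw [mem_val, mem_val]
  constructor
  · rintro ⟨i, h1, h2, h3⟩
    change (Sum.inl (pairN (x.fn i) (x.fn i)) : Obj P) ∈ X at h2
    change val X G (pairN (x.fn i) (x.fn i)) = _ at h3
    have h4 := h.clos.fst _ _ h2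
    rw [val_pairN h.basic.filt h.clos h4 h4] at h3
    obtain ⟨h5, h6⟩ := ZFSet.pair_injective h3
    exact ⟨⟨i, h1, h4, h5⟩, h5.symm.trans h6⟩
  · rintro ⟨⟨i, h1, h2, h3⟩, rfl⟩
    refine ⟨i, h1, h.clos.pair h2 h2, ?_⟩
    change val X G (pairN (x.fn i) (x.fn i)) = _
    rw [val_pairN h.basic.filt h.clos h2 h2, h3]

/-- a big subset is unbounded -/
theorem G2.unb (h : G2 o o' W X G) {K H : ZFSet.{0}} (hH : Big (Mod X G) K H) :
    ∀ γ ∈ K, ∃ y ∈ H, y ∉ γ := by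
  intro γ hγ
  by_contra hc
  push Not at hc
  obtain ⟨⟨x, hx, rfl⟩, -, h2⟩ := hH
  refine h2 γ hγ ⟨_, mem_Mod (h.id hx), ?_, ?_⟩
  · intro a b c hab hac
    rw [← (h.pair_id.1 hab).2, ← (h.pair_id.1 hac).2]
  · intro y hy
    exact ⟨y, hc y hy, h.pair_id.2 ⟨hy, rfl⟩⟩

/-- an unbounded subset of a regular cardinal is big -/
theorem big_of_unb {N : Set ZFSet.{0}} {K H : ZFSet.{0}} (hK : RegIn N K) (hHN : H ∈ N)
    (hHK : H ⊆ K) (hH : ∀ γ ∈ K, ∃ y ∈ H, y ∉ γ) : Big N K H := by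
  refine ⟨hHN, hHK, ?_⟩
  rintro β hβ ⟨f, hf, hf1, hf2⟩
  obtain ⟨γ, hγ, h1⟩ := hK.2 f hf hf1 β hβ
  obtain ⟨y, hy, hyγ⟩ := hH γ hγ
  obtain ⟨x, hx, hxy⟩ := hf2 y hy
  exact hyγ (h1 x hx y (hHK hy) hxy)

theorem eN_mem (h : Basic X G) {a b : o.ToType} (ha : (Sum.inl (eN P a) : Obj P) ∈ X)
    (hb : (Sum.inl (eN P b) : Obj P) ∈ X) : val X G (eN P a) ∈ val X G (eN P b) ↔ a < b :=
  (val_ordN_mem_iff h ha hb).trans eN_lt

theorem eN_inj (h : Basic X G) {a b : o.ToType} (ha : (Sum.inl (eN P a) : Obj P) ∈ X)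
    (hb : (Sum.inl (eN P b) : Obj P) ∈ X) (he : val X G (eN P a) = val X G (eN P b)) : a = b := by
  have := val_ordN_inj h ha hb he
  exact ToType.mk.symm.injective (Subtype.ext this)

/-- in the model: the elements of a big subset above a given element -/
theorem G2.above (h : G2 o o' W X G) (ho : ∀ a < o, a + 1 < o) {x : Nm P}
    (hx : (Sum.inl x : Obj P) ∈ X) (hH : Big (Mod X G) (val X G (ordN P o)) (val X G x))
    (c : o.ToType) (hc : (Sum.inl (eN P c) : Obj P) ∈ X) :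
    ∃ b : o.ToType, c < b ∧ (Sum.inl (eN P b) : Obj P) ∈ X ∧ val X G (eN P b) ∈ val X G x := by
  have h1 : (Sum.inl (ordN P ((ToType.toOrd c).1 + 1)) : Obj P) ∈ X := h.clos.succ _ hc
  have h2 : val X G (ordN P ((ToType.toOrd c).1 + 1)) ∈ val X G (ordN P o) :=
    (val_ordN_mem h.basic.filt).2 ⟨_, ho _ (ToType.toOrd c).2, h1, rfl⟩
  obtain ⟨y, hy, hy2⟩ := h.unb hH _ h2
  obtain ⟨b, hb, rfl⟩ := (mem_val_e h.basic.filt).1 (hH.2.1 hy)
  refine ⟨b, ?_, hb, hy⟩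
  rw [← eN_lt]
  by_contra hcon
  exact hy2 ((val_ordN_mem_iff h.basic hb h1).2 (Order.lt_add_one_iff.2 (not_lt.1 hcon)))

theorem upN_ord {a b a' b' : Ordinal.{0}} {p : P} (hab : a < b) (hab' : a' < b')
    (h : FEq (upN (ordN P a) (ordN P b)) (upN (ordN P a') (ordN P b')) p) : a = a' ∧ b = b' := by
  rw [FEq_iff] at h
  have k1 : a = a' ∨ a = b' := by
    obtain ⟨r, -, j, -, h1⟩ := h.1 true p le_rfl le_top
    rcases j with _ | _
    · exact Or.inr (ordN_inj h1)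
    · exact Or.inl (ordN_inj h1)
  have k2 : b = a' ∨ b = b' := by
    obtain ⟨r, -, j, -, h1⟩ := h.1 false p le_rfl le_top
    rcases j with _ | _
    · exact Or.inr (ordN_inj h1)
    · exact Or.inl (ordN_inj h1)
  rcases k1 with rfl | rfl
  · rcases k2 with rfl | rfl
    · exact absurd hab (lt_irrefl _)
    · exact ⟨rfl, rfl⟩
  · rcases k2 with rfl | rfl
    · exact absurd (hab.trans hab') (lt_irrefl _)
    · exact absurd hab (lt_irrefl _)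

theorem FMem_clN (hW : ∀ a b s t, t ≤ s → s ∈ W a b → t ∈ W a b) {a b : o.ToType} (hab : a < b)
    {p : P} (h : FMem (upN (eN P a) (eN P b)) (clN W) p) : ∀ q ≤ p, ∃ r ≤ q, r ∈ W a b := by
  intro q hq
  obtain ⟨r, hr, ⟨⟨⟨a', b'⟩, s⟩, h1, h2⟩, h3, h4⟩ := h q hq
  obtain ⟨h5, h6⟩ := upN_ord (eN_lt.2 hab) (eN_lt.2 h1) h4
  have h7 : a = a' := ToType.mk.symm.injective (Subtype.ext h5)
  have h8 : b = b' := ToType.mk.symm.injective (Subtype.ext h6)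
  refine ⟨r, hr, hW a b s r h3 ?_⟩
  rw [h7, h8]
  exact h2

/-- the conditions that force the unboundedness -/
theorem G2.dense_above (h : G2 o o' W X G) (ho : ∀ a < o, a + 1 < o) {x : Nm P}
    (hx : (Sum.inl x : Obj P) ∈ X) (hH : Big (Mod X G) (val X G (ordN P o)) (val X G x)) :
    ∃ p ∈ G, ∀ t ≤ p, ∀ c : o.ToType, ∃ s ≤ t, ∃ b, c < b ∧ s ∈ fS x b := by
  obtain ⟨p, hp, h1⟩ := h.hR 2 [Sum.inl x] (mem1X hx)
  rcases h1 with ⟨y, hy, c, H, h2, h3⟩ | h1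
  · exfalso
    simp only [List.cons.injEq, Sum.inl.injEq, and_true] at h2
    obtain ⟨rfl, rfl⟩ := h2
    obtain ⟨b, hcb, hb, hbx⟩ := h.above ho hx hH c hy
    obtain ⟨q, hq, hqx⟩ := (h.basic.mem_iff hb hx).1 hbx
    obtain ⟨r, hr, hrp, hrq⟩ := h.basic.filt.compat hp hq
    exact h3 r hrp b hcb (hqx.mono hrq)
  · refine ⟨p, hp, ?_⟩
    intro t ht c
    by_contra hc
    push Not at hc
    exact h1 t ht (Sum.inl (eN P c)) ⟨c, x, rfl, fun s hs b hb => hc s hs b hb⟩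

theorem G2.not_wc (h : G2 o o' W X G) (ho : ∀ a < o, a + 1 < o)
    (hW : ∀ a b s t, t ≤ s → s ∈ W a b → t ∈ W a b)
    (hW2 : ∀ H : o.ToType → Set P, (∀ b s t, t ≤ s → s ∈ H b → t ∈ H b) →
      ∀ q, (∀ t ≤ q, ∀ c, ∃ s ≤ t, ∃ b, c < b ∧ s ∈ H b) →
      (∃ r ≤ q, ∃ a b, a < b ∧ r ∈ H a ∧ r ∈ H b ∧ r ∈ W a b) ∧
        ∃ r ≤ q, ∃ a b, a < b ∧ r ∈ H a ∧ r ∈ H b ∧ ∀ s ≤ r, s ∉ W a b) :
    ¬ WeaklyCompactIn (Mod X G) (val X G (ordN P o)) := by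
  rintro ⟨-, hwc⟩
  obtain ⟨H, hH, hHW⟩ := hwc _ (mem_Mod h.cl)
  obtain ⟨x, hx, rfl⟩ := hH.1
  obtain ⟨p, hp, hpx⟩ := h.dense_above ho hx hH
  have hmono : ∀ (b : o.ToType) s t, t ≤ s → s ∈ fS x b → t ∈ fS x b :=
    fun b s t hts hs => FMem.mono hs hts
  rcases hHW with hHW | hHW
  · obtain ⟨p', hp', h1⟩ := h.hR 0 [Sum.inl x] (mem1X hx)
    obtain ⟨q, hq, hqp, hqp'⟩ := h.basic.filt.compat hp hp'
    rcases h1 with ⟨y, hy, a, b, H, h2, hab, h3, h4, h5⟩ | h1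
    · simp only [List.cons.injEq, Sum.inl.injEq, and_true] at h2
      obtain ⟨rfl, rfl⟩ := h2
      have ha := h.clos.fst _ _ hy
      have hb := h.clos.snd _ _ hy
      have h6 := hHW _ ((h.basic.mem_iff ha hx).2 ⟨p', hp', h3⟩) _
        ((h.basic.mem_iff hb hx).2 ⟨p', hp', h4⟩) (fun he => hab.ne (eN_inj h.basic ha hb he))
      rw [← val_upN h.basic.filt ha hb] at h6
      obtain ⟨s, hs, h7⟩ := (h.basic.mem_iff (h.clos.up _ _ ha hb) h.cl).1 h6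
      obtain ⟨r, hr, hrs, hrp⟩ := h.basic.filt.compat hs hp'
      obtain ⟨t, ht, htW⟩ := FMem_clN hW hab h7 r hrs
      exact h5 t (ht.trans hrp) htW
    · obtain ⟨r, hr, a, b, hab, h2, h3, h4⟩ := (hW2 (fS x) hmono q
        (fun t ht => hpx t (ht.trans hqp))).2
      exact h1 r (hr.trans hqp') (Sum.inl (pairN (eN P a) (eN P b))) ⟨a, b, x, rfl, hab, h2, h3, h4⟩
  · obtain ⟨p', hp', h1⟩ := h.hR 1 [Sum.inl x] (mem1X hx)
    obtain ⟨q, hq, hqp, hqp'⟩ := h.basic.filt.compat hp hp'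
    rcases h1 with ⟨y, hy, a, b, H, h2, hab, h3, h4, h5⟩ | h1
    · simp only [List.cons.injEq, Sum.inl.injEq, and_true] at h2
      obtain ⟨rfl, rfl⟩ := h2
      have ha := h.clos.fst _ _ hy
      have hb := h.clos.snd _ _ hy
      refine hHW _ ((h.basic.mem_iff ha hx).2 ⟨p', hp', h3⟩) _
        ((h.basic.mem_iff hb hx).2 ⟨p', hp', h4⟩) (fun he => hab.ne (eN_inj h.basic ha hb he)) ?_
      rw [← val_upN h.basic.filt ha hb]
      exact mem_val.2 ⟨⟨((a, b), p'), hab, h5⟩, hp', h.clos.up _ _ ha hb, rfl⟩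
    · obtain ⟨r, hr, a, b, hab, h2, h3, h4⟩ := (hW2 (fS x) hmono q
        (fun t ht => hpx t (ht.trans hqp))).1
      exact h1 r (hr.trans hqp') (Sum.inl (pairN (eN P a) (eN P b))) ⟨a, b, x, rfl, hab, h2, h3, h4⟩

/-- the members of a name of a subset of an ordinal -/
theorem mem_sbN (h : IsFilt X G) {o : Ordinal.{0}} {H : o.ToType → Set P} {z : ZFSet.{0}} :
    z ∈ val X G (sbN H) ↔ ∃ b : o.ToType, (∃ p ∈ G, p ∈ H b) ∧ (Sum.inl (eN P b) : Obj P) ∈ X ∧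
      val X G (eN P b) = z := by
  rw [mem_val]
  constructor
  · rintro ⟨⟨⟨b, p⟩, hbp⟩, h1, h2, h3⟩
    exact ⟨b, ⟨p, h1, hbp⟩, h2, h3⟩
  · rintro ⟨b, ⟨p, hp, hpb⟩, h2, h3⟩
    exact ⟨⟨(b, p), hpb⟩, hp, h2, h3⟩

theorem big_sbN (hG : Basic X G) {o : Ordinal.{0}} {H : o.ToType → Set P}
    (hH : (Sum.inl (sbN H) : Obj P) ∈ X) (hK : RegIn (Mod X G) (val X G (ordN P o)))
    (hR : ∀ a, (Sum.inl (ordN P a) : Obj P) ∈ X → ∃ p ∈ G,
      (∃ b, (Sum.inl (ordN P b) : Obj P) ∈ X ∧ a < b ∧ FMem (ordN P b) (sbN H) p) ∨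
        ∀ q ≤ p, ∀ b, ¬ (a < b ∧ FMem (ordN P b) (sbN H) q))
    {p : P} (hp : p ∈ G) (hpH : ∀ t ≤ p, ∀ c, ∃ s ≤ t, ∃ b, c < b ∧ s ∈ H b) :
    Big (Mod X G) (val X G (ordN P o)) (val X G (sbN H)) := by
  refine big_of_unb hK (mem_Mod hH) ?_ ?_
  · intro z hz
    obtain ⟨b, -, h1, h2⟩ := (mem_sbN hG.filt).1 hz
    exact (mem_val_e hG.filt).2 ⟨b, h1, h2⟩
  · intro γ hγ
    obtain ⟨c, hc, rfl⟩ := (mem_val_e hG.filt).1 hγ
    obtain ⟨p', hp', h1⟩ := hR _ hc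
    rcases h1 with ⟨b, hb, hab, h2⟩ | h1
    · refine ⟨_, (hG.mem_iff hb hH).2 ⟨p', hp', h2⟩, ?_⟩
      intro h3
      exact absurd ((val_ordN_mem_iff hG hb hc).1 h3) (not_lt.2 hab.le)
    · exfalso
      obtain ⟨q, hq, hqp, hqp'⟩ := hG.filt.compat hp hp'
      obtain ⟨s, hs, b, hcb, hsb⟩ := hpH q hqp c
      refine h1 s (hs.trans hqp') (ToType.toOrd b).1 ⟨eN_lt.2 hcb, ?_⟩
      exact FMem.of_fn (y := sbN H) ⟨(b, s), hsb⟩ le_rfl

theorem G2.rel4 (h : G2 o o' W X G) {x : Nm P} (hx : (Sum.inl x : Obj P) ∈ X) (a : Ordinal.{0})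
    (ha : (Sum.inl (ordN P a) : Obj P) ∈ X) : ∃ p ∈ G,
      (∃ b, (Sum.inl (ordN P b) : Obj P) ∈ X ∧ a < b ∧ FMem (ordN P b) x p) ∨
        ∀ q ≤ p, ∀ b, ¬ (a < b ∧ FMem (ordN P b) x q) := by
  obtain ⟨p, hp, h1⟩ := h.hR 4 [Sum.inl (ordN P a), Sum.inl x] (mem2X ha hx)
  refine ⟨p, hp, ?_⟩
  rcases h1 with ⟨y, hy, H, a', b, h2, h3, h4⟩ | h1
  · left
    simp only [List.cons.injEq, Sum.inl.injEq, and_true] at h2
    obtain ⟨rfl, h5, rfl⟩ := h2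
    obtain rfl := ordN_inj' h5
    exact ⟨b, hy, h3, h4⟩
  · right
    rintro q hq b ⟨h2, h3⟩
    exact h1 q hq (Sum.inl (ordN P b)) ⟨x, a, b, rfl, h2, h3⟩

theorem G2.strongPol (h : G2 o o' W X G) (hK : RegIn (Mod X G) (val X G (ordN P o)))
    (hM : RegIn (Mod X G) (val X G (ordN P o')))
    (hpos : ∀ (F : o'.ToType → o.ToType → Set P) (q : P), ∃ r ≤ q, ∃ An Bn, GPos F An Bn r) :
    StrongPol (Mod X G) (val X G (ordN P o)) (val X G (ordN P o')) := by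
  rintro C ⟨x, hx, rfl⟩
  obtain ⟨p, hp, h1⟩ := h.hR 3 [Sum.inl x] (mem1X hx)
  rcases h1 with ⟨y, hy, C, An, Bn, h2, h3⟩ | h1
  · simp only [List.cons.injEq, Sum.inl.injEq, and_true] at h2
    obtain ⟨rfl, rfl⟩ := h2
    have hA := h.clos.fst _ _ hy
    have hB := h.clos.snd _ _ hy
    obtain ⟨hAd, hBd, hAu, hBu, hF⟩ := h3
    refine ⟨_, _, big_sbN h.basic hA hM (h.rel4 hA) hp hAu,
      big_sbN h.basic hB hK (h.rel4 hB) hp hBu, ?_⟩
    have key : ∀ a ∈ val X G (sbN An), ∀ b ∈ val X G (sbN Bn), ∃ l : o'.ToType, ∃ c : o.ToType,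
        ∃ r ∈ G, r ≤ p ∧ r ∈ An l ∧ r ∈ Bn c ∧
          (Sum.inl (pairN (eN P l) (eN P c)) : Obj P) ∈ X ∧
          ZFSet.pair a b = val X G (pairN (eN P l) (eN P c)) := by
      intro a ha b hb
      obtain ⟨l, ⟨s, hs, hsl⟩, hl, rfl⟩ := (mem_sbN h.basic.filt).1 ha
      obtain ⟨c, ⟨t, ht, htc⟩, hc, rfl⟩ := (mem_sbN h.basic.filt).1 hb
      obtain ⟨r, hr, hrs, hrt⟩ := h.basic.filt.compat hs ht
      obtain ⟨r', hr', hrr, hrp⟩ := h.basic.filt.compat hr hp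
      exact ⟨l, c, r', hr', hrp, hAd l s r' (hrr.trans hrs) hsl, hBd c t r' (hrr.trans hrt) htc,
        h.clos.pair hl hc, (val_pairN h.basic.filt h.clos hl hc).symm⟩
    rcases hF with hF | hF
    · left
      intro a ha b hb
      obtain ⟨l, c, r, hr, hrp, hrl, hrc, hX, he⟩ := key a ha b hb
      rw [he]
      refine (h.basic.mem_iff hX hx).2 ⟨r, hr, ?_⟩
      exact FMem_low (S := fC x l c) (fun s hs => hs) (hF r hrp l c hrl hrc)
    · right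
      intro a ha b hb
      obtain ⟨l, c, r, hr, hrp, hrl, hrc, hX, he⟩ := key a ha b hb
      rw [he]
      intro hmem
      obtain ⟨s, hs, h4⟩ := (h.basic.mem_iff hX hx).1 hmem
      obtain ⟨t, ht, htr, hts⟩ := h.basic.filt.compat hr hs
      refine hF t (htr.trans hrp) l c (hAd l r t htr hrl) (hBd c r t htr hrc) ?_
      intro q hq
      exact ⟨q, le_rfl, q, FMem.mono h4 (hq.trans hts), le_rfl⟩
  · exfalso
    obtain ⟨r, hr, An, Bn, h2⟩ := hpos (fC x) p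
    exact h1 r hr (Sum.inl (pairN (sbN An) (sbN Bn))) ⟨x, An, Bn, rfl, h2⟩

/-- **Block T2.** -/
theorem t2 (h : G2 o o' W X G) (ho : ∀ a < o, a + 1 < o)
    (hW : ∀ a b s t, t ≤ s → s ∈ W a b → t ∈ W a b)
    (hW2 : ∀ H : o.ToType → Set P, (∀ b s t, t ≤ s → s ∈ H b → t ∈ H b) →
      ∀ q, (∀ t ≤ q, ∀ c, ∃ s ≤ t, ∃ b, c < b ∧ s ∈ H b) →
      (∃ r ≤ q, ∃ a b, a < b ∧ r ∈ H a ∧ r ∈ H b ∧ r ∈ W a b) ∧
        ∃ r ≤ q, ∃ a b, a < b ∧ r ∈ H a ∧ r ∈ H b ∧ ∀ s ≤ r, s ∉ W a b)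
    (hpos : ∀ (F : o'.ToType → o.ToType → Set P) (q : P), ∃ r ≤ q, ∃ (An : o'.ToType → Set P)
      (Bn : o.ToType → Set P),
      (∀ l s t, t ≤ s → s ∈ An l → t ∈ An l) ∧ (∀ b s t, t ≤ s → s ∈ Bn b → t ∈ Bn b) ∧
      (∀ t ≤ r, ∀ l, ∃ s ≤ t, ∃ l', l < l' ∧ s ∈ An l') ∧
      (∀ t ≤ r, ∀ b, ∃ s ≤ t, ∃ b', b < b' ∧ s ∈ Bn b') ∧
      ((∀ t ≤ r, ∀ l b, t ∈ An l → t ∈ Bn b → FrIn (F l) t b) ∨
        ∀ t ≤ r, ∀ l b, t ∈ An l → t ∈ Bn b → ¬ FrIn (F l) t b))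
    (hK : RegIn (Mod X G) (val X G (ordN P o)))
    (hM : RegIn (Mod X G) (val X G (ordN P o'))) :
    ¬ WeaklyCompactIn (Mod X G) (val X G (ordN P o)) ∧
      StrongPol (Mod X G) (val X G (ordN P o)) (val X G (ordN P o')) :=
  ⟨h.not_wc ho hW hW2, h.strongPol hK hM hpos⟩

end

end Pool.Agent.Helper3.SP
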